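import Pool.Agent.TH194.MR.Cnt
import Pool.Agent.TH194.MR.Cheb

/-!
# abc triples of every height with a large prime factor

The number of abc triples of radical at most `X`, of whatever height, whose product has a prime
factor `≥ P` is `min (X ^ (2/3), X / P)` up to a factor `X ^ o(1)`, for `1 ≤ P ≤ (X / 32) ^ (1/2)`;
the upper bound holds for every `P`.
-/

set_option autoImplicit false

namespace Pool.Agent.Results.MP_4ab349_nt.LargePrimeFactor

/-- the product of the primes dividing `n` -/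
def radical (n : ℕ) : ℕ := ∏ q ∈ n.primeFactors, q

/-- the abc triples `(a, b, a + b)`, written `(a, b)`: coprime `1 ≤ a ≤ b`, the radical of
`a b (a + b)` at most `X`, and `a b (a + b)` divisible by a prime `q ≥ P`; there is no condition
on the size of `a + b` -/
def triples (X P : ℝ) : Set (ℕ × ℕ) :=
  {t | 0 < t.1 ∧ t.1 ≤ t.2 ∧ Nat.Coprime t.1 t.2 ∧
    ((radical (t.1 * t.2 * (t.1 + t.2)) : ℕ) : ℝ) ≤ X ∧
    ∃ q : ℕ, q.Prime ∧ q ∣ t.1 * t.2 * (t.1 + t.2) ∧ P ≤ q}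

/-- the triple of a pair -/
def toT (t : ℕ × ℕ) : Fin 3 → ℕ := ![t.1, t.2, t.1 + t.2]

open Pool.Agent.TH867.SR Pool.Agent.TH194.MR

theorem toT_inj : Function.Injective toT := by
  intro p q h
  have h0 := congrFun h 0
  have h1 := congrFun h 1
  simp only [toT, Matrix.cons_val_zero, Matrix.cons_val_one] at h0 h1
  exact Prod.ext h0 h1

theorem toT_tr {X P : ℝ} {p : ℕ × ℕ} (hp : p ∈ triples X P) :
    Tr (toT p) ∧ rr (toT p) 0 + rr (toT p) 1 + rr (toT p) 2 ≤ Real.log X := by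
  obtain ⟨h1, h2, h3, h4, -⟩ := hp
  have ht : Tr (toT p) := ⟨h1, h2, h3, rfl⟩
  refine ⟨ht, ?_⟩
  rw [← rr_sum ht, ← log_prod_primes fun q hq => Nat.prime_of_mem_primeFactors hq]
  refine Real.log_le_log ?_ h4
  exact_mod_cast Finset.prod_pos fun q hq => (Nat.prime_of_mem_primeFactors hq).pos

theorem triples_finite {X P : ℝ} (hX : 1 ≤ X) : (triples X P).Finite := by
  obtain ⟨H, hH⟩ : ∃ H, H = Real.exp (3000 * (1 + Real.log X) ^ 6) := ⟨_, rfl⟩
  refine Set.Finite.subset (Finset.finite_toSet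
    ((Finset.range (⌊Real.exp H⌋₊ + 1)) ×ˢ (Finset.range (⌊Real.exp H⌋₊ + 1)))) ?_
  intro p hp
  have h5 := Pool.Agent.TH867.SM.height_le (toT_tr hp).1 hX (toT_tr hp).2
  rw [← hH] at h5
  obtain ⟨h1, h2, _, _⟩ := hp
  have h7 : toT p 2 = p.1 + p.2 := rfl
  rw [h7] at h5
  have h6 : p.1 + p.2 ≤ ⌊Real.exp H⌋₊ := by
    refine Nat.le_floor ?_
    rw [← Real.log_le_iff_le_exp (by exact_mod_cast (by omega : 0 < p.1 + p.2))]
    exact h5
  simp only [Finset.coe_product, Finset.coe_range, Set.mem_prod, Set.mem_Iio]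
  omega

/-- the lower bound -/
theorem lower : ∃ c : ℝ, 0 < c ∧ ∀ X P Q : ℝ, 1 ≤ X → 1 ≤ Q → P ≤ Q → 32 * Q ^ 2 ≤ X →
    X ≤ Q ^ 3 → c * (X / Q) / Real.log X ≤ ((triples X P).ncard : ℝ) := by
  classical
  obtain ⟨c, hc, h⟩ := card_PR
  refine ⟨c / 64, by positivity, fun X P Q hX hQ hPQ h32 h3 => ?_⟩
  have hX0 : 0 < X := by linarith
  have hQ0 : 0 < Q := by linarith
  obtain ⟨B, hB⟩ : ∃ B, B = X / (32 * Q ^ 2) := ⟨_, rfl⟩
  have hB1 : 1 ≤ B := by rw [hB, le_div_iff₀ (by positivity)]; linarith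
  have hBQ : B ≤ Q / 32 := by
    rw [hB, div_le_iff₀ (by positivity)]
    nlinarith
  have hBX : B * (32 * Q ^ 2) = X := by
    rw [hB]
    exact div_mul_cancel₀ _ (by positivity)
  have hsub : (((Finset.Icc 1 ⌊B⌋₊) ×ˢ (PR Q) : Finset (ℕ × ℕ)) : Set (ℕ × ℕ)) ⊆
      triples X P := by
    rintro ⟨b, p⟩ ht
    rw [Finset.mem_coe, Finset.mem_product] at ht
    obtain ⟨hb, hp⟩ := ht
    simp only at hb hp
    rw [Finset.mem_Icc] at hb
    obtain ⟨hp1, hp2, hp3⟩ := mem_PR hQ hp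
    have hbB : (b : ℝ) ≤ B := (Nat.le_floor_iff (by linarith)).1 hb.2
    have hb0 : (1 : ℝ) ≤ b := by exact_mod_cast hb.1
    have hbp : (b : ℝ) < p := by linarith
    have hbp' : b < p := by exact_mod_cast hbp
    refine ⟨hb.1, hbp'.le, ?_, ?_, p, hp1, ?_, hPQ.trans hp2⟩
    · exact (Nat.Coprime.symm ((Nat.Prime.coprime_iff_not_dvd hp1).2
        fun hd => absurd (Nat.le_of_dvd hb.1 hd) (by omega)))
    · have b1 : radical (b * p * (b + p)) ≤ b * p * (b + p) :=
        Nat.le_of_dvd (Nat.mul_pos (Nat.mul_pos hb.1 hp1.pos) (by omega))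
          (Nat.prod_primeFactors_dvd _)
      have b2 : ((radical (b * p * (b + p)) : ℕ) : ℝ) ≤ (b : ℝ) * p * (b + p) := by
        exact_mod_cast b1
      refine b2.trans ?_
      have b3 : (b : ℝ) + p ≤ 8 * Q := by linarith
      calc (b : ℝ) * p * (b + p) ≤ B * (4 * Q) * (8 * Q) := by gcongr
        _ = B * (32 * Q ^ 2) := by ring
        _ = X := hBX
    · exact Dvd.dvd.mul_right (Dvd.intro_left b rfl) _
  have h1 := Set.ncard_le_ncard hsub (triples_finite hX)
  rw [Set.ncard_coe_finset, Finset.card_product, Nat.card_Icc, Nat.add_sub_cancel] at h1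
  have h2 : ((⌊B⌋₊ : ℕ) : ℝ) * (PR Q).card ≤ ((triples X P).ncard : ℝ) := by exact_mod_cast h1
  refine le_trans ?_ h2
  have h4 : B / 2 ≤ (⌊B⌋₊ : ℝ) := by
    have e1 : B < ⌊B⌋₊ + 1 := Nat.lt_floor_add_one B
    have e2 : (1 : ℝ) ≤ (⌊B⌋₊ : ℝ) := by
      exact_mod_cast (Nat.le_floor (by exact_mod_cast hB1) : 1 ≤ ⌊B⌋₊)
    linarith
  have hl0 : 0 < Real.log (4 * Q) := Real.log_pos (by linarith)
  have h5 : c * Q / Real.log X ≤ (PR Q).card := by
    refine le_trans ?_ (h Q hQ)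
    refine div_le_div_of_nonneg_left (by positivity) hl0 ?_
    refine Real.log_le_log (by linarith) ?_
    nlinarith
  have hlX : 0 ≤ Real.log X := Real.log_nonneg hX
  calc c / 64 * (X / Q) / Real.log X = B / 2 * (c * Q / Real.log X) := by
        rw [← hBX]
        field_simp
        ring
    _ ≤ (⌊B⌋₊ : ℝ) * (PR Q).card :=
        mul_le_mul h4 h5 (div_nonneg (by positivity) hlX) (Nat.cast_nonneg _)

/-- **Main theorem.** Upper bound for all `P`, lower bound for `P ≤ (X / 32) ^ (1 / 2)`, of the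
same order up to a factor `X ^ ε`. -/
theorem result :
    (∀ ε : ℝ, 0 < ε → ∃ C : ℝ, ∀ X P : ℝ, 1 ≤ X → 1 ≤ P → (triples X P).Finite ∧
      ((triples X P).ncard : ℝ) ≤ C * X ^ ε * min (X ^ (2 / 3 : ℝ)) (X / P)) ∧
    ∃ c : ℝ, 0 < c ∧ ∀ X P : ℝ, 32768 ≤ X → 1 ≤ P → 32 * P ^ 2 ≤ X →
      c * min (X ^ (2 / 3 : ℝ)) (X / P) / Real.log X ≤ ((triples X P).ncard : ℝ) := by
  classical
  constructor
  · intro ε hε
    obtain ⟨D1, hD1, h1⟩ := Pool.Agent.TH867.SB.all_heights ε hε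
    obtain ⟨D2, hD2, h2⟩ := prime_all ε hε
    refine ⟨max D1 D2, fun X P hX hP => ?_⟩
    have hX0 : 0 < X := by linarith
    have hfin := triples_finite (P := P) hX
    refine ⟨hfin, ?_⟩
    obtain ⟨F, hF⟩ : ∃ F, F = hfin.toFinset.image toT := ⟨_, rfl⟩
    have hcard : (triples X P).ncard = F.card := by
      rw [hF, Finset.card_image_of_injective _ toT_inj, Set.ncard_eq_toFinset_card _ hfin]
    have hmem : ∀ t ∈ F, Tr t ∧ rr t 0 + rr t 1 + rr t 2 ≤ Real.log X ∧
        ∃ p : ℕ, p.Prime ∧ p ∣ N3 t ∧ P ≤ p := by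
      intro t ht
      rw [hF, Finset.mem_image] at ht
      obtain ⟨p, hp, rfl⟩ := ht
      rw [Set.Finite.mem_toFinset] at hp
      exact ⟨(toT_tr hp).1, (toT_tr hp).2, hp.2.2.2.2⟩
    rw [hcard]
    have e1 := h1 X hX F fun t ht => ⟨(hmem t ht).1, (hmem t ht).2.1⟩
    have e2 := h2 X P hX hP F hmem
    have hXε : 0 < X ^ ε := Real.rpow_pos_of_pos hX0 _
    rcases le_total (X ^ (2 / 3 : ℝ)) (X / P) with h | h
    · rw [min_eq_left h]
      refine e1.trans ?_
      rw [Real.rpow_add hX0, mul_assoc, mul_comm (X ^ ε)]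
      exact mul_le_mul_of_nonneg_right (le_max_left _ _) (by positivity)
    · rw [min_eq_right h]
      refine e2.trans ?_
      rw [mul_assoc, mul_assoc]
      exact mul_le_mul_of_nonneg_right (le_max_right _ _) (by positivity)
  · obtain ⟨c, hc, h⟩ := lower
    refine ⟨c, hc, fun X P hX hP hPX => ?_⟩
    have hX0 : 0 < X := by linarith
    have hX1 : 1 ≤ X := by linarith
    obtain ⟨Y, hY⟩ : ∃ Y, Y = X ^ (1 / 3 : ℝ) := ⟨_, rfl⟩
    have hY0 : 0 < Y := by rw [hY]; positivity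
    have hY3 : Y ^ 3 = X := by
      rw [hY, ← Real.rpow_natCast, ← Real.rpow_mul hX0.le]
      norm_num
    have hY2 : X ^ (2 / 3 : ℝ) = X / Y := by
      rw [eq_div_iff hY0.ne', hY, ← Real.rpow_add hX0]
      norm_num
    have hY32 : 32 ≤ Y := by
      by_contra hcon
      push Not at hcon
      have : Y ^ 3 < 32 ^ 3 := pow_lt_pow_left₀ hcon hY0.le (by norm_num)
      rw [hY3] at this
      norm_num at this
      linarith
    have hlX : 0 ≤ Real.log X := Real.log_nonneg hX1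
    rcases le_total P Y with hPY | hPY
    · have e1 := h X P Y hX1 (by linarith) hPY (by nlinarith) hY3.ge
      refine le_trans ?_ e1
      refine div_le_div_of_nonneg_right ?_ hlX
      rw [← hY2]
      exact mul_le_mul_of_nonneg_left (min_le_left _ _) hc.le
    · have e1 := h X P P hX1 hP le_rfl hPX (by rw [← hY3]; exact pow_le_pow_left₀ hY0.le hPY 3)
      refine le_trans ?_ e1
      refine div_le_div_of_nonneg_right ?_ hlX
      exact mul_le_mul_of_nonneg_left (min_le_right _ _) hc.le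

end Pool.Agent.Results.MP_4ab349_nt.LargePrimeFactor
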